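import Pool.Agent.Helper37.UL.E7

/-!
# The degenerations with the decomposition groups
-/

universe u

namespace Pool.Agent.Helper37.UL

open Polynomial IsLocalRing Pool.Agent.Helper91.Sect

/-- **Block E1** with a valuation ring. -/
theorem two_trans_dec {C : Type u} [Field C] [IsAlgClosed C] [CharZero C] {Λ : Subfield C}
    {t : C} (ht : Transcendental Λ t) {d : ℕ} (hd : 3 ≤ d)
    (hC : ∀ x : C, IsAlgebraic (Subfield.closure (Λ ∪ {t})) x)
    (c : Fin (d + 1) → Λ[X]) (W : ValuationSubring C)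
    (hW : ∀ n : ℕ, n ≠ 0 → W.valuation (n : C) = 1)
    (hc : ∀ i r, ((c i).coeff r : C) ∈ W)
    (hlast : ∀ r, W.valuation (((c (Fin.last d)).coeff r : C) - if r = 0 then 1 else 0) < 1)
    (hprev : ∀ i : Fin (d + 1), (i : ℕ) = d - 1 → ∀ r,
      W.valuation (((c i).coeff r : C) + if r = 0 then 1 else 0) < 1)
    (hzero : ∀ r, W.valuation (((c 0).coeff r : C) + if r = 1 then 1 else 0) < 1)
    (hrest : ∀ i : Fin (d + 1), (i : ℕ) ≠ d → (i : ℕ) ≠ d - 1 → (i : ℕ) ≠ 0 → ∀ r,
      W.valuation ((c i).coeff r : C) < 1)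
    {θ : Fin d → C} (hθ : Function.Injective θ)
    (hroot : ∀ i, ∑ l, aeval t (c l) * θ i ^ (l : ℕ) = 0)
    {i j i' j' : Fin d} (hij : i ≠ j) (hij' : i' ≠ j') :
    ∃ (σ : C ≃+* C) (V : ValuationSubring C), (∀ x ∈ Λ, σ x = x) ∧ σ t = t ∧ σ (θ i) = θ i' ∧
      σ (θ j) = θ j' ∧ (∀ x, σ x ∈ V ↔ x ∈ V) ∧ (∀ x ∈ Λ, x ∈ W → x ∈ V) ∧
      (∀ x ∈ Λ, W.valuation x < 1 → V.valuation x < 1) ∧ t ∈ V := by
  classical
  set k : Subfield C := Subfield.closure (Λ ∪ {t}) with hk
  have hΛk : Λ ≤ k := fun x hx => Subfield.subset_closure (Or.inl hx)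
  have htk : t ∈ k := Subfield.subset_closure (Or.inr rfl)
  let _ : Algebra Λ k := (Subfield.inclusion hΛk).toAlgebra
  have hsc : IsScalarTower Λ k C := IsScalarTower.of_algebraMap_eq fun x => rfl
  have hgal : IsGalois k C := isGalois_of_alg k hC
  set OΛ : ValuationSubring Λ := W.comap (algebraMap Λ C) with hOΛ
  obtain ⟨O, hcore⟩ := exists_core_one k ht (fun x hx => hx) htk OΛ
  obtain ⟨Q, hQ, hA⟩ := exists_above (k := k) (C := C) (O := O)
  -- lift the coefficients
  have hlift : ∀ l, ∃ g : OΛ[X], g.map OΛ.subtype = c l := by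
    intro l
    have h1 : c l ∈ lifts OΛ.subtype := by
      rw [lifts_iff_coeff_lifts]
      intro n
      exact ⟨⟨(c l).coeff n, hc l n⟩, rfl⟩
    rwa [mem_lifts] at h1
  choose g hg using hlift
  have hcoe : ∀ z : k, algebraMap k C z = z := fun z => rfl
  have hmapev : ∀ p : OΛ[X], algebraMap k C (ev OΛ ⟨t, htk⟩ p) = aeval t (p.map OΛ.subtype) := by
    intro p
    rw [algebraMap_ev, ev_eq_aeval]; rfl
  have hres : ∀ l : Fin (d + 1), (g l - tgtP OΛ d (l : ℕ)).map (residue OΛ) = 0 := by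
    intro l
    ext r
    rw [coeff_map, coeff_zero, residue_eq_zero_iff, OΛ.valuation_lt_one_iff, comap_lt_one]
    have h1 : ((g l).coeff r : Λ) = (c l).coeff r := by rw [← hg l, coeff_map]; rfl
    rw [coeff_sub]
    change W.valuation (((((g l).coeff r : OΛ) : Λ) : C) - (((tgtP OΛ d l).coeff r : OΛ) : Λ)) < 1
    rw [h1, tgtP]
    by_cases h2 : (l : ℕ) = d
    · have h3 : l = Fin.last d := Fin.ext h2
      rw [if_pos h2, h3, coeff_one]
      have h4 := hlast r
      by_cases hr : r = 0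
      · rw [if_pos hr] at h4 ⊢; exact h4
      · rw [if_neg hr] at h4; rw [if_neg (Ne.symm (Ne.symm hr))]; exact h4
    · by_cases h3 : (l : ℕ) = d - 1
      · rw [if_neg h2, if_pos h3, coeff_neg, coeff_one]
        have h4 := hprev l h3 r
        by_cases hr : r = 0
        · rw [if_pos hr] at h4 ⊢
          have h5 : ((((-1 : OΛ)) : Λ) : C) = -1 := by push_cast; rfl
          rw [h5, sub_neg_eq_add]; exact h4
        · rw [if_neg hr] at h4 ⊢
          have h5 : ((((-0 : OΛ)) : Λ) : C) = 0 := by rw [neg_zero]; rfl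
          rw [h5, sub_zero]; rwa [add_zero] at h4
      · by_cases h4 : (l : ℕ) = 0
        · rw [if_neg h2, if_neg h3, if_pos h4, coeff_neg, coeff_X]
          have h5 : l = 0 := Fin.ext h4
          have h6 := hzero r
          rw [h5]
          by_cases hr : r = 1
          · rw [if_pos hr] at h6
            rw [if_pos hr.symm]
            have h7 : ((((-1 : OΛ)) : Λ) : C) = -1 := by push_cast; rfl
            rw [h7, sub_neg_eq_add]; exact h6
          · rw [if_neg hr] at h6
            rw [if_neg (Ne.symm hr)]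
            have h7 : ((((-0 : OΛ)) : Λ) : C) = 0 := by rw [neg_zero]; rfl
            rw [h7, sub_zero]; rwa [add_zero] at h6
        · rw [if_neg h2, if_neg h3, if_neg h4, coeff_zero]
          have h5 : ((((0 : OΛ)) : Λ) : C) = 0 := rfl
          rw [h5, sub_zero]
          exact hrest l h2 h3 h4 r
  let a : Fin (d + 1) → k := fun l => ev OΛ ⟨t, htk⟩ (g l)
  have haC : ∀ l, algebraMap k C (a l) = aeval t (c l) := by
    intro l
    rw [hmapev, hg]
  have ha : ∀ l, O.valuation (a l - tgt d ⟨t, htk⟩ (l : ℕ)) < 1 := by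
    intro l
    rw [← ev_tgtP OΛ, ← map_sub]
    exact hcore.ev_lt (hres l)
  obtain ⟨-, -, h3⟩ := hcore.two_trans Q (fun n hn => hcore.val_natCast (by
    rw [comap_eq_one, map_natCast]; exact hW n hn)) hA hd ha hθ (fun i => by
      rw [← hroot i]
      exact Finset.sum_congr rfl fun l _ => by rw [haC])
  obtain ⟨σ, hσD, h4, h5⟩ := h3 i j i' j' hij hij'
  refine ⟨σ.toRingEquiv, locW Q, fun x hx => σ.commutes ⟨x, hΛk hx⟩, σ.commutes ⟨t, htk⟩, h4, h5,
    fun x => ?_, fun x hx hxW => ?_, fun x hx hxW => ?_, ?_⟩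
  · rw [← (locW Q).valuation_le_one_iff, ← (locW Q).valuation_le_one_iff]
    exact val_le_one_D Q hσD x
  · rw [← (locW Q).valuation_le_one_iff]
    have h6 : (⟨x, hx⟩ : Λ) ∈ OΛ := hxW
    have h7 := hcore.le _ h6
    exact locW_algebraMap_le ((O.valuation_le_one_iff _).2 h7)
  · have h6 : OΛ.valuation (⟨x, hx⟩ : Λ) < 1 := (comap_lt_one _ _ _).2 hxW
    exact locW_algebraMap_lt Q hA (hcore.lt _ h6)
  · rw [← (locW Q).valuation_le_one_iff]
    exact locW_algebraMap_le (a := (⟨t, htk⟩ : k)) ((O.valuation_le_one_iff _).2 hcore.mem)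

/-- **Block E2** for a larger field. -/
theorem no_lev_dec {C : Type u} [Field C] [IsAlgClosed C] [CharZero C] {Λ : Subfield C}
    {t v : C} (htv : AlgebraicIndependent Λ ![t, v])
    (hC : ∀ x : C, IsAlgebraic (Subfield.closure ((Λ : Set C) ∪ {t, v})) x)
    {p d : ℕ} (hp : p.Prime) (hd : 3 ≤ d)
    (c : Fin (d + 1) → MvPolynomial (Fin 2) Λ) (W : ValuationSubring C)
    (hW : ∀ n : ℕ, n ≠ 0 → W.valuation (n : C) = 1)
    (hc : ∀ i r, ((MvPolynomial.coeff r (c i) : Λ) : C) ∈ W)
    (hc0 : ∀ i, W.valuation ((MvPolynomial.coeff 0 (c i) : Λ) : C) < 1)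
    (hct : ∀ i, W.valuation
      (((MvPolynomial.coeff (Finsupp.single (0 : Fin 2) 1) (c i) : Λ) : C) + if i = 0 then 1 else 0) < 1)
    (hcv : ∀ i, W.valuation
      (((MvPolynomial.coeff (Finsupp.single (1 : Fin 2) 1) (c i) : Λ) : C) -
      if (i : ℕ) = d then 1 else if (i : ℕ) = d - 1 then -1 else 0) < 1)
    {θ : Fin d → C} {z : Fin d → Fin d → C} {α : C}
    {k1 : Subfield C}
    (hk1 : ∀ (σ : C ≃+* C) (V : ValuationSubring C), (∀ x, σ x ∈ V ↔ x ∈ V) →
      (∀ x ∈ Λ, x ∈ W → x ∈ V) → V.valuation t < 1 →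
      (∀ x ∈ Subfield.closure ((Λ : Set C) ∪ {t, v}), σ x = x) → ∀ x ∈ k1, σ x = x)
    (h : Lev k1 p (fun i => MvPolynomial.aeval ![t, v] (c i)) θ z α) :
    False := by
  classical
  have hcoefk : ∀ i, MvPolynomial.aeval ![t, v] (c i) ∈ Subfield.closure ((Λ : Set C) ∪ {t, v}) := by
    intro i
    rw [MvPolynomial.aeval_def, MvPolynomial.eval₂_eq]
    refine Subfield.sum_mem _ fun r _ => Subfield.mul_mem _ ?_ (Subfield.prod_mem _ fun j _ =>
      Subfield.pow_mem _ ?_ _)
    · exact Subfield.subset_closure (Or.inl (Subtype.coe_prop _))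
    · fin_cases j
      · exact Subfield.subset_closure (Or.inr (Or.inl rfl))
      · exact Subfield.subset_closure (Or.inr (Or.inr rfl))
  set k : Subfield C := Subfield.closure ((Λ : Set C) ∪ {t, v}) with hk
  have hΛk : Λ ≤ k := fun x hx => Subfield.subset_closure (Or.inl hx)
  have htk : t ∈ k := Subfield.subset_closure (Or.inr (Or.inl rfl))
  have hvk : v ∈ k := Subfield.subset_closure (Or.inr (Or.inr rfl))
  have hsk : t / v ∈ k := div_mem htk hvk
  let _ : Algebra Λ k := (Subfield.inclusion hΛk).toAlgebra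
  have hsc : IsScalarTower Λ k C := IsScalarTower.of_algebraMap_eq fun x => rfl
  have hgal : IsGalois k C := isGalois_of_alg k hC
  set OΛ : ValuationSubring Λ := W.comap (algebraMap Λ C) with hOΛ
  obtain ⟨V, hV, hcore, hnp⟩ := exists_core_two k htv (fun x hx => hx) hsk OΛ
  set O : ValuationSubring k := V.comap (algebraMap k C) with hO
  obtain ⟨Q, hQ, hA⟩ := exists_above (k := k) (C := C) (O := O)
  have hv0 : v ≠ 0 := hV.v_ne
  have hcoe : ∀ z : k, algebraMap k C z = z := fun z => rfl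
  have hest : ∀ l : Fin (d + 1), V.valuation (MvPolynomial.aeval ![t, v] (c l) / v -
      tgt d (t / v) (l : ℕ)) < 1 := by
    intro l
    refine coeff_est hV hd l (c l) (fun r => hc l r) ?_ ?_ ?_
    · rw [comap_lt_one]; exact hc0 l
    · rw [comap_lt_one, map_add]
      have h1 := hct l
      have h2 : algebraMap Λ C (if (l : ℕ) = 0 then 1 else 0) = if l = 0 then 1 else 0 := by
        by_cases h3 : l = 0
        · rw [if_pos h3, if_pos (by rw [h3]; rfl), map_one]
        · have h4 : (l : ℕ) ≠ 0 := fun h4 => h3 (Fin.ext h4)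
          rw [if_neg h3, if_neg h4, map_zero]
      rw [h2]; exact h1
    · rw [comap_lt_one, map_sub]
      have h1 := hcv l
      have h2 : algebraMap Λ C (if (l : ℕ) = d then 1 else if (l : ℕ) = d - 1 then -1 else 0) =
          if (l : ℕ) = d then 1 else if (l : ℕ) = d - 1 then -1 else 0 := by
        split_ifs <;> simp
      rw [h2]; exact h1
  let a : Fin (d + 1) → k := fun l => ⟨MvPolynomial.aeval ![t, v] (c l) / v, div_mem (hcoefk l) hvk⟩
  have hatgt : ∀ l : ℕ, algebraMap k C (tgt d ⟨t / v, hsk⟩ l) = tgt d (t / v) l := by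
    intro l
    rw [tgt, tgt]
    split_ifs
    · rw [map_one]
    · rw [map_neg, map_one]
    · rw [map_neg]; rfl
    · rw [map_zero]
  have ha : ∀ l, O.valuation (a l - tgt d ⟨t / v, hsk⟩ (l : ℕ)) < 1 := by
    intro l
    rw [comap_lt_one, map_sub, hatgt]
    exact hest l
  obtain ⟨hdiff, hθle, htr⟩ := hcore.two_trans Q (fun n hn => hcore.val_natCast (by
    rw [comap_eq_one, map_natCast]; exact hW n hn)) hA hd ha h.inj (fun i => by
      have h1 := congrArg (fun x => x / v) (h.root i)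
      simp only [Finset.sum_div, zero_div] at h1
      rw [← h1]
      refine Finset.sum_congr rfl fun l _ => ?_
      change MvPolynomial.aeval ![t, v] (c l) / v * θ i ^ (l : ℕ) = _
      ring)
  set U := (locW Q).valuation with hU
  have hts : t = t / v * v := (div_mul_cancel₀ _ hv0).symm
  have hfix : ∀ σ : C ≃ₐ[k] C, InD Q σ → ∀ x ∈ k1, σ x = x := by
    intro σ hσ
    refine hk1 σ.toRingEquiv (locW Q) (fun x => ?_) (fun x hx hxW => ?_) ?_
      (fun x hx => σ.commutes ⟨x, hx⟩)
    · rw [← (locW Q).valuation_le_one_iff, ← (locW Q).valuation_le_one_iff]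
      exact val_le_one_D Q hσ x
    · rw [← (locW Q).valuation_le_one_iff]
      have h6 : (⟨x, hx⟩ : Λ) ∈ OΛ := hxW
      have h7 := hcore.le _ h6
      exact locW_algebraMap_le ((O.valuation_le_one_iff _).2 h7)
    · have h6 : O.valuation (⟨t, htk⟩ : k) < 1 := by
        rw [comap_lt_one]
        change V.valuation t < 1
        rw [hts, map_mul]
        have h7 := hV.ev_le X
        rw [ev_X] at h7
        exact lt_of_le_of_lt (mul_le_of_le_one_left' h7) hV.v_lt
      exact locW_algebraMap_lt Q hA h6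
  have hUk : ∀ x y : k, y ≠ 0 → (U (x : C) = U (y : C) ↔ V.valuation (x : C) = V.valuation (y : C)) := by
    intro x y hy
    have h1 := locW_eq_iff Q hA (a := x) (b := y) hy
    rw [comap_eq _ _ hy] at h1
    exact h1
  -- the common value of the `z i j`
  have hzval : ∀ i j i' j', i ≠ j → i' ≠ j' → U (z i j) = U (z i' j') := by
    intro i j i' j' hij hij'
    obtain ⟨φ, hφ, hpow⟩ := h.pow
    obtain ⟨σ, hσD, hσi, hσj⟩ := htr i j i' j' hij hij'
    have h1 : σ (z i j ^ p) = z i' j' ^ p := by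
      rw [hpow i j hij, hpow i' j' hij', map_sum]
      refine Finset.sum_congr rfl fun r _ => ?_
      rw [map_sum]
      refine Finset.sum_congr rfl fun q _ => ?_
      rw [map_mul, map_mul, map_pow, map_pow, hσi, hσj]
      congr 1
      exact hfix σ hσD _ (hφ r q)
    have h2 := val_InD Q hσD (z i j ^ p)
    rw [h1, map_pow, map_pow] at h2
    exact ((pow_left_inj₀ zero_le zero_le hp.ne_zero).1 h2).symm
  -- three different indices
  let i0 : Fin d := ⟨0, by omega⟩
  let i1 : Fin d := ⟨1, by omega⟩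
  let i2 : Fin d := ⟨2, by omega⟩
  have h01 : i0 ≠ i1 := fun h => by simpa [i0, i1] using congrArg Fin.val h
  have h12 : i1 ≠ i2 := fun h => by simpa [i1, i2] using congrArg Fin.val h
  have h02 : i0 ≠ i2 := fun h => by simpa [i0, i2] using congrArg Fin.val h
  set γ := U (z i0 i1) with hγ
  have hγ0 : γ ≠ 0 := (_root_.map_ne_zero _).2 (h.ne i0 i1 h01)
  obtain ⟨ψ, hψ, hcoc⟩ := h.coc
  obtain ⟨χ, hχ, hnrm⟩ := h.nrm
  set q : C := ∑ r, ∑ s, ∑ t, ψ r s t * (θ i0 ^ (r : ℕ) * θ i1 ^ (s : ℕ) * θ i2 ^ (t : ℕ)) with hq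
  have hqval : U q = γ := by
    have h1 := congrArg U (hcoc i0 i1 i2 h01 h12 h02)
    rw [map_mul, map_mul, hzval i1 i2 i0 i1 h12 h01, hzval i0 i2 i0 i1 h02 h01] at h1
    exact (mul_left_cancel₀ hγ0 h1).symm
  have hq0 : q ≠ 0 := by
    intro h0
    rw [h0, map_zero] at hqval
    exact hγ0 hqval.symm
  set e : C := ∑ r, χ r * θ i0 ^ (r : ℕ) with he
  have heval : U α * γ ^ (d - 1) = U e := by
    have h1 := congrArg U (hnrm i0)
    rw [map_mul, map_prod] at h1
    rw [← h1]
    congr 1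
    rw [Finset.prod_congr rfl fun j hj => hzval j i0 i0 i1 (Finset.ne_of_mem_erase hj) h01,
      Finset.prod_const, Finset.card_erase_of_mem (Finset.mem_univ _), Finset.card_univ,
      Fintype.card_fin]
  set H : C := e / q ^ (d - 1) with hH
  have hHval : U H = U α := by
    rw [hH, map_div₀, map_pow, hqval, ← heval, mul_div_cancel_right₀ _ (pow_ne_zero _ hγ0)]
  -- the value of the leading coefficient
  have hlead : U (MvPolynomial.aeval ![t, v] (c (Fin.last d))) = U v := by
    have h1 := ha (Fin.last d)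
    rw [tgt, if_pos (Fin.val_last d), comap_lt_one, map_sub, map_one] at h1
    have h2 : V.valuation (algebraMap k C (a (Fin.last d))) = 1 := by
      have h3 := Valuation.map_add_eq_of_lt_right V.valuation
        (x := algebraMap k C (a (Fin.last d)) - 1) (y := 1) (by rw [map_one]; exact h1)
      rw [sub_add_cancel, map_one] at h3
      exact h3
    have h4 := (locW_algebraMap_eq_one Q hA (a := a (Fin.last d))).2 ((comap_eq_one _ _ _).2 h2)
    change U (MvPolynomial.aeval ![t, v] (c (Fin.last d)) / v) = 1 at h4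
    rw [map_div₀, div_eq_one_iff_eq ((_root_.map_ne_zero _).2 hv0)] at h4
    exact h4
  have hvval : U v = U H ^ p := by
    rw [hHval, ← map_pow, h.alpha, hlead]
  have hv0' : U v ≠ 0 := (_root_.map_ne_zero _).2 hv0
  have hH0 : H ≠ 0 := by
    intro h0
    rw [h0, map_zero, zero_pow hp.ne_zero] at hvval
    exact hv0' hvval
  -- the inertia element
  obtain ⟨w, hw⟩ := IsAlgClosed.exists_pow_nat_eq v hp.pos
  obtain ⟨ζ, hζ⟩ : ∃ ζ : C, IsPrimitiveRoot ζ p := by
    have : NeZero (p : C) := ⟨by exact_mod_cast hp.ne_zero⟩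
    exact HasEnoughRootsOfUnity.exists_primitiveRoot C p
  have hodd : ∀ x : k, O.valuation (⟨v, hvk⟩ : k) ≠ O.valuation x ^ p := by
    intro x hx
    by_cases hx0 : x = 0
    · rw [hx0, map_zero, zero_pow hp.ne_zero] at hx
      have h1 : (⟨v, hvk⟩ : k) = 0 := by simpa using hx
      exact hv0 (congrArg Subtype.val h1)
    · rw [← map_pow, comap_eq _ _ (pow_ne_zero p hx0)] at hx
      refine hnp p hp x x.2 ?_
      rw [← map_pow]; exact hx
  obtain ⟨τ, hτI, hτw⟩ := Helper91.SE.exists_inertia_ne Q hA hp hodd (w := w) hw hζ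
  have hτθ : ∀ i, τ (θ i) = θ i := by
    intro i
    have h1 : ∑ l, MvPolynomial.aeval ![t, v] (c l) * (τ (θ i)) ^ (l : ℕ) = 0 := by
      have h2 := congrArg τ (h.root i)
      rw [map_sum, map_zero] at h2
      rw [← h2]
      refine Finset.sum_congr rfl fun l _ => ?_
      rw [map_mul, map_pow]
      congr 1
      exact (τ.commutes ⟨_, hcoefk l⟩).symm
    obtain ⟨m, hm⟩ := root_mem h.lead h.inj h.root h1
    by_contra hne
    have hmi : m ≠ i := fun h2 => hne (by rw [hm, h2])
    have h2 := hdiff m i hmi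
    have h3 : U (τ (θ i) - θ i) < 1 := val_inertia Q hτI (hθle i)
    rw [hm] at h3
    exact h3.ne h2
  have hτk : ∀ x ∈ k1, τ x = x := hfix τ hτI.1
  have hτq : τ q = q := by
    rw [hq]
    simp only [map_sum, map_mul, map_pow, hτθ]
    exact Finset.sum_congr rfl fun r _ => Finset.sum_congr rfl fun s _ =>
      Finset.sum_congr rfl fun t _ => by rw [hτk _ (hψ r s t)]
  have hτe : τ e = e := by
    rw [he]
    simp only [map_sum, map_mul, map_pow, hτθ]
    exact Finset.sum_congr rfl fun r _ => by rw [hτk _ (hχ r)]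
  have hτH : τ H = H := by rw [hH, map_div₀, map_pow, hτq, hτe]
  have hw0 : w ≠ 0 := by
    rintro rfl
    rw [zero_pow hp.ne_zero] at hw
    exact hv0 hw.symm
  have hUw : U w = U H := by
    have h1 : U w ^ p = U H ^ p := by rw [← map_pow, hw, hvval]
    exact (pow_left_inj₀ zero_le zero_le hp.ne_zero).1 h1
  have hHv : U H ≠ 0 := (_root_.map_ne_zero _).2 hH0
  have hUu : U (w / H) = 1 := by rw [map_div₀, hUw, div_self hHv]
  have h1 := val_inertia Q hτI hUu.le
  set η : C := τ w / w with hη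
  have hτw' : τ w = η * w := by rw [hη, div_mul_cancel₀ _ hw0]
  have hηp : η ^ p = 1 := by
    have hτv : τ v = v := τ.commutes ⟨v, hvk⟩
    rw [hη, div_pow, ← map_pow, hw, hτv, div_self hv0]
  have hη1 : η ≠ 1 := by
    intro h2
    rw [h2, one_mul] at hτw'
    exact hτw hτw'
  have h2 : τ (w / H) - w / H = (η - 1) * (w / H) := by
    rw [map_div₀, hτH, hτw']; ring
  rw [h2, map_mul] at h1
  change U (η - 1) * U (w / H) < 1 at h1
  rw [hUu, mul_one] at h1
  -- the sum of the powers of `η`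
  have hUη : U η ≤ 1 := by
    have h3 : U η ^ p = 1 := by rw [← map_pow, hηp, map_one]
    exact ((pow_eq_one_iff_of_nonneg zero_le hp.ne_zero).1 h3).le
  have h3 : ∑ i ∈ Finset.range p, η ^ i = 0 := by
    have h4 := mul_geom_sum η p
    rw [hηp, sub_self] at h4
    exact (mul_eq_zero.1 h4).resolve_left (sub_ne_zero.2 hη1)
  have h4 : U (∑ i ∈ Finset.range p, (η ^ i - 1)) < 1 := by
    refine Valuation.map_sum_lt' _ zero_lt_one fun i _ => ?_
    rw [← mul_geom_sum, map_mul]
    refine (mul_le_of_le_one_right' ?_).trans_lt h1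
    refine Valuation.map_sum_le _ fun j _ => ?_
    rw [map_pow]
    exact pow_le_one' hUη j
  rw [Finset.sum_sub_distrib, h3, Finset.sum_const, Finset.card_range, nsmul_eq_mul, mul_one,
    zero_sub, Valuation.map_neg] at h4
  have h5 : O.valuation ((p : ℕ) : k) = 1 := hcore.val_natCast (by
    rw [comap_eq_one, map_natCast]; exact hW p hp.ne_zero)
  have h6 := (locW_algebraMap_eq_one Q hA (a := ((p : ℕ) : k))).2 h5
  rw [map_natCast] at h6
  exact h4.ne h6

end Pool.Agent.Helper37.UL
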