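import Mathlib
import Pool.Agent.Helper10.UL.Gen5
import Pool.Agent.Helper37.TH.V2

/-!
# The generic curve in one variable over an unramified and split extension: two theorems
-/

universe u v w

namespace TH

open Polynomial Pool.Agent.Helper37.UL UL

/-- transport along an embedding -/
theorem SplitAt.map {C : Type u} [Field C] {S : Type w} [Field S] (ι : C →+* S) {κ : Subfield C}
    {T q : C} (h : SplitAt κ T q) : SplitAt (κ.map ι) (ι T) (ι q) := by
  obtain ⟨e, P, r, hr, h1, h2⟩ := h
  let f : κ →+* (κ.map ι) :=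
    (ι.comp κ.subtype).codRestrict (κ.map ι) (fun x => ⟨x, x.2, rfl⟩)
  refine ⟨e, fun i => (P i).map f, fun j => f (r j), fun a b hab => hr (f.injective hab),
    fun j => ?_, ?_⟩
  · have h3 := congrArg f (h1 j)
    simp only [map_add, map_sum, map_mul, map_pow, map_zero] at h3
    refine Eq.trans ?_ h3
    congr 1
    refine Finset.sum_congr rfl fun i _ => ?_
    congr 1
    change eval 0 ((P i).map f) = f (eval 0 (P i))
    rw [← coeff_zero_eq_eval_zero, ← coeff_zero_eq_eval_zero, coeff_map]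
  · have h3 := congrArg ι h2
    simp only [map_add, map_sum, map_mul, map_pow, map_zero] at h3
    refine Eq.trans ?_ h3
    congr 1
    refine Finset.sum_congr rfl fun i _ => ?_
    congr 1
    rw [aeval_def, eval₂_map, aeval_def, hom_eval₂]
    rfl

/-- scaling an algebraically independent family -/
theorem algInd_scale {K L : Type*} [Field K] [Field L] [Algebra K L] {ι : Type*} {x : ι → L}
    (hx : AlgebraicIndependent K x) (a : ι → K) (ha : ∀ i, a i ≠ 0) :
    AlgebraicIndependent K (fun i => algebraMap K L (a i) * x i) := by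
  let φ : MvPolynomial ι K →ₐ[K] MvPolynomial ι K :=
    MvPolynomial.aeval (fun i => MvPolynomial.C (a i) * MvPolynomial.X i)
  let ψ : MvPolynomial ι K →ₐ[K] MvPolynomial ι K :=
    MvPolynomial.aeval (fun i => MvPolynomial.C (a i)⁻¹ * MvPolynomial.X i)
  have h1 : ψ.comp φ = AlgHom.id K _ := by
    apply MvPolynomial.algHom_ext
    intro q
    rw [AlgHom.comp_apply]
    simp only [φ, MvPolynomial.aeval_X]
    rw [map_mul]
    simp only [ψ, MvPolynomial.aeval_X, MvPolynomial.algHom_C]
    rw [MvPolynomial.algebraMap_eq, ← mul_assoc, ← MvPolynomial.C_mul, mul_inv_cancel₀ (ha q),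
      MvPolynomial.C_1, one_mul]
    rfl
  have hφ : Function.Injective φ := by
    intro a b hab
    have h2 := congrArg ψ hab
    rw [← AlgHom.comp_apply, ← AlgHom.comp_apply, h1] at h2
    exact h2
  have h2 : (MvPolynomial.aeval (fun i => algebraMap K L (a i) * x i) :
      MvPolynomial ι K →ₐ[K] L) = (MvPolynomial.aeval x).comp φ := by
    apply MvPolynomial.algHom_ext
    intro q
    rw [AlgHom.comp_apply]
    simp only [φ, MvPolynomial.aeval_X, map_mul, MvPolynomial.algHom_C]
  unfold AlgebraicIndependent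
  rw [h2]
  exact (show Function.Injective (MvPolynomial.aeval x : MvPolynomial ι K →ₐ[K] L) from hx).comp hφ

/-- dividing some of the members by a fixed one -/
theorem algInd_div {K L : Type*} [Field K] [Field L] [Algebra K L] {ι : Type*} [DecidableEq ι]
    {x : ι → L} (hx : AlgebraicIndependent K x) (i₀ : ι) (P : ι → Prop) [DecidablePred P] :
    AlgebraicIndependent K (fun i => if i = i₀ then x i else if P i then x i / x i₀ else x i) := by
  classical
  let Q := {i : ι // i ≠ i₀}
  let φ : Q ⊕ Fin 1 → ι := Sum.elim (fun q => q.1) (fun _ => i₀)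
  have hφ : Function.Injective φ := by
    rintro (q | i) (q' | j) hij
    · rw [Subtype.ext hij]
    · exact absurd hij q.2
    · exact absurd hij.symm q'.2
    · rw [Subsingleton.elim i j]
  have h1 : AlgebraicIndependent K (Sum.elim (fun q : Q => x q.1) (fun _ : Fin 1 => x i₀)) := by
    have h2 := hx.comp φ hφ
    have e : x ∘ φ = Sum.elim (fun q : Q => x q.1) (fun _ : Fin 1 => x i₀) := by
      funext i
      rcases i with i | q <;> rfl
    rwa [e] at h2
  obtain ⟨h2, h3⟩ := AlgebraicIndependent.sumElim_iff.1 h1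
  have h4 : AlgebraicIndependent
      (IntermediateField.adjoin K (Set.range fun _ : Fin 1 => x i₀)) (fun q : Q => x q.1) :=
    IntermediateField.algebraicIndependent_adjoin_iff.2 h3
  have hx0 : x i₀ ≠ 0 := hx.ne_zero i₀
  have hm : x i₀ ∈ IntermediateField.adjoin K (Set.range fun _ : Fin 1 => x i₀) :=
    IntermediateField.subset_adjoin _ _ ⟨0, rfl⟩
  let a : Q → IntermediateField.adjoin K (Set.range fun _ : Fin 1 => x i₀) := fun q =>
    if P q.1 then ⟨x i₀, hm⟩⁻¹ else 1
  have ha : ∀ q, a q ≠ 0 := by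
    intro q
    simp only [a]
    split_ifs
    · apply inv_ne_zero
      intro h
      exact hx0 (congrArg Subtype.val h)
    · exact one_ne_zero
  have h5 := algInd_scale h4 a ha
  have h6 := IntermediateField.algebraicIndependent_adjoin_iff.1 h5
  have h7 := AlgebraicIndependent.sumElim_iff.2 ⟨h2, h6⟩
  let ψ : ι → Q ⊕ Fin 1 := fun i => if h : i = i₀ then Sum.inr 0 else Sum.inl ⟨i, h⟩
  have hψ : Function.Injective ψ := by
    intro i j hij
    simp only [ψ] at hij
    by_cases hi : i = i₀
    · by_cases hj : j = i₀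
      · rw [hi, hj]
      · rw [dif_pos hi, dif_neg hj] at hij
        cases hij
    · by_cases hj : j = i₀
      · rw [dif_neg hi, dif_pos hj] at hij
        cases hij
      · rw [dif_neg hi, dif_neg hj] at hij
        exact congrArg Subtype.val (Sum.inl_injective hij)
  have h8 := h7.comp ψ hψ
  convert h8 using 1
  funext i
  simp only [Function.comp_apply, ψ]
  by_cases hi : i = i₀
  · rw [if_pos hi, dif_pos hi, hi]
    rfl
  · rw [if_neg hi, dif_neg hi, Sum.elim_inl]
    simp only [a]
    split_ifs with hP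
    · rw [map_inv₀, div_eq_inv_mul]
      rfl
    · rw [map_one, one_mul]

section

variable {J : Type v} {U : Ultrafilter J} {C : Type u} [Field C] {S : Type w} [Field S]
  {π : (J → C) →+* S} {m d : ℕ} {vv : J → Fin (d + 1) × Fin (m + 1) → C} (h : UP U π)

/-- the assignment for the new variables -/
def n3 {d m : ℕ} (q : Fin (d + 1) × Fin (m + 1)) : ℤ :=
  if q = qd d m then 0 else n1 q

/-- the new variables -/
noncomputable def ydiv {S : Type w} [Field S] {m d : ℕ} (x : Fin (d + 1) × Fin (m + 1) → S)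
    (i : Fin (d + 1) × Fin (m + 1)) : S :=
  if i = qd d m then x i else if (i.2 : ℕ) = 0 then x i / x (qd d m) else x i

include h

theorem exists_W_div [CharZero C] (hU : ∀ Ψ : MvPolynomial (Fin (d + 1) × Fin (m + 1)) C, Ψ ≠ 0 →
    ∀ᶠ j in (U : Filter J), MvPolynomial.eval (vv j) Ψ ≠ 0)
    (n : Fin (d + 1) × Fin (m + 1) → ℤ) :
    ∃ W : ValuationSubring S, ResZero W ∧ (∀ c : C, UP.cst π c ∈ W) ∧
      (∀ i, ydiv (xg π vv) i ∈ W) ∧ ∀ i, W.valuation (ydiv (xg π vv) i - n i) < 1 := by
  have h0 : AlgebraicIndependent (UP.cst π).fieldRange (ydiv (xg π vv)) :=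
    algInd_div (algInd_xgC h hU) (qd d m) (fun i => (i.2 : ℕ) = 0)
  obtain ⟨W, hW1, hW2⟩ := exists_W h0 (fun i => (n i : (UP.cst π).fieldRange))
  have hc : ∀ c : C, UP.cst π c ∈ W := fun c => hW1 ⟨UP.cst π c, ⟨c, rfl⟩⟩
  have hval : ∀ i, W.valuation (ydiv (xg π vv) i - n i) < 1 := by
    intro i
    have := hW2 i
    rw [map_intCast] at this
    exact this
  refine ⟨W, ?_, hc, fun i => ?_, hval⟩
  · intro m hm
    have hm' : (m : C) ≠ 0 := Nat.cast_ne_zero.mpr hm
    have h1 : UP.cst π (m : C) = (m : S) := map_natCast _ _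
    have h2 : (m : S) ≠ 0 := by
      rw [← h1]
      exact (_root_.map_ne_zero _).mpr hm'
    have h3 := hc (m : C)
    have h4 := hc (m : C)⁻¹
    rw [map_inv₀, h1] at h4
    rw [h1] at h3
    have h5 := (W.valuation_le_one_iff _).2 h3
    have h6 := (W.valuation_le_one_iff _).2 h4
    rw [map_inv₀] at h6
    have h7 : W.valuation (m : S) ≠ 0 := (Valuation.ne_zero_iff _).mpr h2
    exact le_antisymm h5 ((inv_le_one₀ (zero_lt_iff.2 h7)).1 h6)
  · have h1 : ydiv (xg π vv) i - n i ∈ W := (W.valuation_le_one_iff _).1 (hval i).le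
    have h2 : ((n i : ℤ) : S) ∈ W := intCast_mem W (n i)
    have h3 := W.add_mem _ _ h1 h2
    rwa [sub_add_cancel] at h3

/-- **2-transitivity for the generic curve in one variable, over an unramified and split
extension.** -/
theorem two_trans_theta [IsAlgClosed C] [CharZero C]
    (hU : ∀ Ψ : MvPolynomial (Fin (d + 1) × Fin (m + 1)) C, Ψ ≠ 0 →
      ∀ᶠ j in (U : Filter J), MvPolynomial.eval (vv j) Ψ ≠ 0)
    {κ : Subfield C} (hv : ∀ j i, vv j i ∈ κ) {T : C} (hT : AlgebraicIndependent κ ![T])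
    {q : C} (hq : SplitAt κ T q)
    (hd : 3 ≤ d) (hm : 1 ≤ m) {θ : Fin d → S} (hθ : Function.Injective θ)
    (hroot : ∀ i, ∑ l : Fin (d + 1), (π fun a => ∑ e : Fin (m + 1), vv a (l, e) *
      T ^ (e : ℕ)) * θ i ^ (l : ℕ) = 0) {i j i' j' : Fin d} (hij : i ≠ j) (hij' : i' ≠ j') :
    ∃ σ : S ≃+* S, (∀ x ∈ gen (h.gsub κ) (fun i => UP.cst π ((![T] : Fin 1 → C) i)), σ x = x) ∧
      σ (UP.cst π q) = UP.cst π q ∧ σ (θ i) = θ i' ∧ σ (θ j) = θ j' := by
  classical
  have := h.isAlgClosed
  have := h.charZero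
  obtain ⟨W, hW, hWc, hWx, hWv⟩ := exists_W_div h hU n3
  set x := xg π vv with hx
  set v : S := x (qd d m) with hvdef
  have hv0 : v ≠ 0 := (algInd_xgC h hU).ne_zero (qd d m)
  have hxA : ∀ q, x q ∈ h.gsub κ := fun q => ⟨_, fun j => hv j q, rfl⟩
  have hvA : v ∈ h.gsub κ := hxA _
  have hyv : ydiv x (qd d m) = v := by
    unfold ydiv
    rw [if_pos rfl]
  have hvW : W.valuation v < 1 := by
    have h1 := hWv (qd d m)
    rw [hyv] at h1
    have h2 : n3 (qd d m) = 0 := by
      unfold n3
      rw [if_pos rfl]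
    rwa [h2, Int.cast_zero, sub_zero] at h1
  have hvW' : v ∈ W := (W.valuation_le_one_iff _).1 hvW.le
  -- the new coefficients
  let b : Fin (d + 1) × Fin (m + 1) → h.gsub κ := fun q =>
    ⟨x q * v ^ (q.2 : ℕ) / v, div_mem (mul_mem (hxA q) (pow_mem hvA _)) hvA⟩
  have hb0 : ∀ q : Fin (d + 1) × Fin (m + 1), (q.2 : ℕ) = 0 → q ≠ qd d m →
      (b q : S) = ydiv x q := by
    intro q h1 h2
    simp only [b]
    unfold ydiv
    rw [if_neg h2, if_pos h1, h1, pow_zero, mul_one]
  have hb0' : (b (qd d m) : S) = 1 := by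
    simp only [b]
    have h1 : (((qd d m).2 : Fin (m + 1)) : ℕ) = 0 := rfl
    rw [h1, pow_zero, mul_one]
    exact div_self hv0
  have hb1 : ∀ q : Fin (d + 1) × Fin (m + 1), (q.2 : ℕ) ≠ 0 →
      (b q : S) = ydiv x q * v ^ ((q.2 : ℕ) - 1) := by
    intro q h1
    simp only [b]
    unfold ydiv
    have h2 : q ≠ qd d m := by
      rintro rfl
      exact h1 rfl
    rw [if_neg h2, if_neg h1, mul_div_assoc]
    congr 1
    rw [div_eq_iff hv0, ← pow_succ]
    congr 1
    omega
  have hbW : ∀ q, (b q : S) ∈ W := by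
    intro q
    by_cases h1 : (q.2 : ℕ) = 0
    · by_cases h2 : q = qd d m
      · rw [h2, hb0']; exact one_mem _
      · rw [hb0 q h1 h2]; exact hWx q
    · rw [hb1 q h1]
      exact mul_mem (hWx q) (pow_mem hvW' _)
  have hbv : ∀ q, W.valuation ((b q : S) - n1 q) < 1 := by
    intro q
    by_cases h1 : (q.2 : ℕ) = 0
    · by_cases h2 : q = qd d m
      · rw [h2, hb0']
        have h3 : (n1 (qd d m) : ℤ) = 1 := by
          unfold n1
          have h4 : (((qd d m).2 : Fin (m + 1)) : ℕ) = 0 := rfl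
          have h5 : (((qd d m).1 : Fin (d + 1)) : ℕ) = d := rfl
          rw [if_pos h4, if_pos h5]
        rw [h3, Int.cast_one, sub_self, map_zero]
        exact zero_lt_one
      · rw [hb0 q h1 h2]
        have h3 := hWv q
        unfold n3 at h3
        rwa [if_neg h2] at h3
    · have h2 : q ≠ qd d m := by
        rintro rfl
        exact h1 rfl
      have h3 := hWv q
      unfold n3 at h3
      rw [if_neg h2] at h3
      rw [hb1 q h1]
      by_cases h4 : (q.2 : ℕ) = 1
      · rw [h4, Nat.sub_self, pow_zero, mul_one]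
        exact h3
      · have h5 : (n1 q : ℤ) = 0 := by
          unfold n1
          rw [if_neg h1, if_neg h4]
        rw [h5, Int.cast_zero, sub_zero]
        rw [map_mul, map_pow]
        have h6 : W.valuation (ydiv x q) ≤ 1 := (W.valuation_le_one_iff _).2 (hWx q)
        have h7 : W.valuation v ^ ((q.2 : ℕ) - 1) < 1 := pow_lt_one₀ zero_le hvW (by omega)
        exact lt_of_le_of_lt (mul_le_of_le_one_left' h6) h7
  obtain ⟨k1, k2, k3, k4, k5⟩ := twoTrans_hyps_one (W := W) hd hm (b := b) hbW hbv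
  set T' := UP.cst π T with hT'
  let s : S := T' / v
  have hsv : s * v = T' := div_mul_cancel₀ _ hv0
  -- `s` is transcendental
  have hτ : AlgebraicIndependent (h.gsub κ) (![s] : Fin 1 → S) := by
    have h1 := h.algInd hT
    rw [algebraicIndependent_unique_type_iff] at h1 ⊢
    intro h2
    apply h1
    have h3 : UP.cst π ((![T] : Fin 1 → C) default) = s * v := by
      rw [hsv]
      rfl
    rw [h3]
    exact IsAlgebraic.mul h2 (isAlgebraic_algebraMap (⟨v, hvA⟩ : h.gsub κ))
  let κ' : Subfield S := κ.map (UP.cst π)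
  have hκA : κ' ≤ h.gsub κ := by
    rintro _ ⟨c, hc, rfl⟩
    exact h.const_mem_gsub.mpr hc
  have hκW : ∀ x ∈ κ', x ∈ W := by
    rintro _ ⟨c, hc, rfl⟩
    exact hWc c
  have hq' : SplitAt κ' ((![s] : Fin 1 → S) 0 * v) (UP.cst π q) := by
    have h1 := hq.map (UP.cst π)
    have h2 : (![s] : Fin 1 → S) 0 * v = T' := hsv
    rw [h2]
    exact h1
  have hroot' : ∀ i, ∑ l, aeval ((![s] : Fin 1 → S) 0) (cOne b l) * θ i ^ (l : ℕ) = 0 := by
    intro i
    have h1 : ∀ l : Fin (d + 1), aeval ((![s] : Fin 1 → S) 0) (cOne b l) =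
        (π fun a => ∑ e : Fin (m + 1), vv a (l, e) * T ^ (e : ℕ)) / v := by
      intro l
      rw [pi_one, eq_div_iff hv0, Finset.sum_congr rfl (fun e _ => rfl)]
      unfold cOne
      rw [map_sum, Finset.sum_mul]
      refine Finset.sum_congr rfl fun e _ => ?_
      rw [map_mul, aeval_C, map_pow, aeval_X]
      change x (l, e) * v ^ (e : ℕ) / v * s ^ (e : ℕ) * v = x (l, e) * T' ^ (e : ℕ)
      rw [← hsv, mul_pow]
      field_simp
    have h2 : ∀ l : Fin (d + 1), aeval ((![s] : Fin 1 → S) 0) (cOne b l) * θ i ^ (l : ℕ) =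
        ((π fun a => ∑ e : Fin (m + 1), vv a (l, e) * T ^ (e : ℕ)) * θ i ^ (l : ℕ)) / v := by
      intro l
      rw [h1 l]
      ring
    rw [Finset.sum_congr rfl (fun l _ => h2 l), ← Finset.sum_div, hroot i, zero_div]
  obtain ⟨σ, hσ1, hσ2, hσ3, hσ4⟩ := two_trans_gen_q hτ hd (fun i => cOne b i) W hW k1 k2 k3 k4 k5
    hθ hroot' hκA hκW hvA hvW hq' hij hij'
  refine ⟨σ, fun y hy => hσ1 y ?_, hσ4, hσ2, hσ3⟩
  have hle : gen (h.gsub κ) (fun i => UP.cst π ((![T] : Fin 1 → C) i)) ≤
      gen (h.gsub κ) (![s] : Fin 1 → S) := by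
    unfold gen
    rw [Subfield.closure_le, Set.union_subset_iff]
    refine ⟨fun a ha => Subfield.subset_closure (Or.inl ha), ?_⟩
    rintro _ ⟨i, rfl⟩
    have h3 : (fun i => UP.cst π ((![T] : Fin 1 → C) i)) i = s * v := by
      rw [hsv]
      fin_cases i
      rfl
    rw [h3]
    refine mul_mem (Subfield.subset_closure (Or.inr ⟨0, rfl⟩))
      (Subfield.subset_closure (Or.inl hvA))
  exact hle hy

/-- **No level one structure for the generic curve in one variable, over an unramified and split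
extension.** -/
theorem no_lev_theta [IsAlgClosed C] [CharZero C]
    (hU : ∀ Ψ : MvPolynomial (Fin (d + 1) × Fin (m + 1)) C, Ψ ≠ 0 →
      ∀ᶠ j in (U : Filter J), MvPolynomial.eval (vv j) Ψ ≠ 0)
    {κ : Subfield C} {T : C} (hT : AlgebraicIndependent κ ![T]) {q : C} (hq : SplitAt κ T q)
    {p : ℕ} (hp : p.Prime) (hd : 3 ≤ d) (hm : 1 ≤ m)
    {L' : Subfield S} (hL : L' ≤ Subfield.closure ((UP.cst π '' κ) ∪ Set.range (xg π vv)))
    {θ : Fin d → S} {z : Fin d → Fin d → S} {α : S}
    (hl : Lev (Subfield.closure ((gen L' (fun i => UP.cst π ((![T] : Fin 1 → C) i)) : Set S) ∪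
      {UP.cst π q})) p
      (fun i : Fin (d + 1) => π fun a => ∑ e : Fin (m + 1), vv a (i, e) * T ^ (e : ℕ))
      θ z α) : False := by
  classical
  have := h.isAlgClosed
  have := h.charZero
  obtain ⟨W, hW, hWc, hWx, hWv⟩ := exists_W_C h hU n2
  set x := xg π vv with hx
  set y := ynew x with hy
  let Cst := (UP.cst π).fieldRange
  let κ' : Subfield S := κ.map (UP.cst π)
  have hκC : κ' ≤ Cst := by
    rintro _ ⟨c, -, rfl⟩
    exact ⟨c, rfl⟩
  have hTC : UP.cst π T ∈ Cst := ⟨T, rfl⟩
  have hyC : AlgebraicIndependent Cst y := algInd_ynew hd (algInd_xgC h hU)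
  -- `T` is transcendental over `κ'`
  have hT' : AlgebraicIndependent κ' ![UP.cst π T] := by
    have h1 := h.algInd hT
    have h2 : κ' ≤ h.gsub κ := by
      rintro _ ⟨c, hc, rfl⟩
      exact h.const_mem_gsub.mpr hc
    have h3 : (fun i => UP.cst π ((![T] : Fin 1 → C) i)) = ![UP.cst π T] := by
      funext i
      fin_cases i; rfl
    rw [h3] at h1
    let _ : Algebra κ' (h.gsub κ) := (Subfield.inclusion h2).toAlgebra
    have : IsScalarTower κ' (h.gsub κ) S := IsScalarTower.of_algebraMap_eq fun _ => rfl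
    exact h1.restrictScalars (Subfield.inclusion h2).injective
  -- `y` is algebraically independent over `κ'[T]`
  have hyT : AlgebraicIndependent (Algebra.adjoin κ' (Set.range ![UP.cst π T])) y := by
    have hle : ∀ a : S, a ∈ Algebra.adjoin κ' (Set.range ![UP.cst π T]) → a ∈ Cst := by
      intro a ha
      have h1 : Algebra.adjoin κ' (Set.range ![UP.cst π T]) ≤
          { Cst.toSubring with algebraMap_mem' := fun q => hκC q.2 } := by
        rw [Algebra.adjoin_le_iff]
        rintro _ ⟨i, rfl⟩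
        fin_cases i
        exact hTC
      exact h1 ha
    let _ : Algebra (Algebra.adjoin κ' (Set.range ![UP.cst π T])) Cst := RingHom.toAlgebra
      { toFun := fun a => ⟨a, hle a a.2⟩
        map_one' := rfl
        map_mul' := fun _ _ => rfl
        map_zero' := rfl
        map_add' := fun _ _ => rfl }
    have : IsScalarTower (Algebra.adjoin κ' (Set.range ![UP.cst π T])) Cst S :=
      IsScalarTower.of_algebraMap_eq fun _ => rfl
    refine hyC.restrictScalars (K := Cst) ?_
    intro a b hab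
    exact Subtype.ext (congrArg (fun t : Cst => (t : S)) hab)
  have hyT2 : AlgebraicIndependent κ' (Sum.elim y ![UP.cst π T]) :=
    AlgebraicIndependent.sumElim_iff.2 ⟨hT', hyT⟩
  -- rearrange
  let Q := {q : Fin (d + 1) × Fin (m + 1) // q ≠ qd d m}
  let φ : Fin 2 ⊕ Q → (Fin (d + 1) × Fin (m + 1)) ⊕ Fin 1 :=
    Sum.elim ![Sum.inr 0, Sum.inl (qd d m)] (fun q => Sum.inl q.1)
  have hφ : Function.Injective φ := by
    rintro (i | q) (j | q') hij
    · fin_cases i <;> fin_cases j <;> simp [φ] at hij ⊢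
    · fin_cases i
      · simp [φ] at hij
      · simp only [φ, Sum.elim_inl, Sum.elim_inr] at hij
        exact absurd (Sum.inl_injective hij).symm q'.2
    · fin_cases j
      · simp [φ] at hij
      · simp only [φ, Sum.elim_inl, Sum.elim_inr] at hij
        exact absurd (Sum.inl_injective hij) q.2
    · simp only [φ, Sum.elim_inr] at hij
      rw [Subtype.ext (Sum.inl_injective hij)]
  have hyqd : y (qd d m) = x (qd d m) := by
    rw [hy]
    unfold ynew
    rw [if_neg (qd_ne_qe hd)]
  have h3 : AlgebraicIndependent κ' (Sum.elim ![UP.cst π T, x (qd d m)] (fun q : Q => y q.1)) := by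
    have h4 := hyT2.comp φ hφ
    have e : Sum.elim y ![UP.cst π T] ∘ φ =
        Sum.elim ![UP.cst π T, x (qd d m)] (fun q : Q => y q.1) := by
      funext i
      rcases i with i | q
      · fin_cases i
        · rfl
        · exact hyqd
      · rfl
    rwa [e] at h4
  have h4 := (AlgebraicIndependent.sumElim_iff.1 h3).2
  have h5 : AlgebraicIndependent (IntermediateField.adjoin κ' (Set.range fun q : Q => y q.1))
      ![UP.cst π T, x (qd d m)] := IntermediateField.algebraicIndependent_adjoin_iff.2 h4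
  let A : Subfield S := (IntermediateField.adjoin κ' (Set.range fun q : Q => y q.1)).toSubfield
  have hA : AlgebraicIndependent A ![UP.cst π T, x (qd d m)] := h5
  have hyA : ∀ q, q ≠ qd d m → y q ∈ A := fun q hq =>
    IntermediateField.subset_adjoin κ' _ ⟨⟨q, hq⟩, rfl⟩
  have hκA : κ' ≤ A := fun c hc => IntermediateField.algebraMap_mem _ (⟨c, hc⟩ : κ')
  let b : Fin (d + 1) × Fin (m + 1) → A := fun q =>
    if hq : q = qd d m then 0 else ⟨y q, hyA q hq⟩
  have hb : ∀ q, q ≠ qd d m → (b q : S) = ynew x q := by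
    intro q hq
    simp only [b]
    rw [dif_neg hq]
  obtain ⟨k1, k2, k3, k4⟩ := noLev_hyps_one (W := W) hd hm hWx hWv hb
  have hκW : ∀ x ∈ κ', x ∈ W := by
    rintro _ ⟨c, hc, rfl⟩
    exact hWc c
  have hq' : SplitAt κ' ((![UP.cst π T, x (qd d m)] : Fin 2 → S) 0) (UP.cst π q) :=
    hq.map (UP.cst π)
  refine no_lev_gen_q hA hp hd (fun i => cTwo b i) W hW k1 k2 k3 k4 (θ := θ) (z := z)
    (α := α) hκA hκW hq' ?_
  have h6 : (fun i : Fin (d + 1) => π fun a => ∑ e : Fin (m + 1), vv a (i, e) * T ^ (e : ℕ)) =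
      fun i => MvPolynomial.aeval ![UP.cst π T, x (qd d m)] (cTwo b i) := by
    funext i
    rw [pi_one, aeval_cTwo hd (UP.cst π T) x b hb]
  rw [h6] at hl
  refine hl.mono ?_
  -- the field
  have hxmem : ∀ q, x q ∈ gen A ![UP.cst π T, x (qd d m)] := by
    intro q
    have hu : x (qd d m) ∈ gen A ![UP.cst π T, x (qd d m)] := gen_mem (τ := ![UP.cst π T, x (qd d m)]) 1
    by_cases hq : q = qd d m
    · rw [hq]; exact hu
    · have h7 : y q ∈ gen A ![UP.cst π T, x (qd d m)] := le_gen (hyA q hq)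
      by_cases hq' : q = qe d m
      · have h8 : y q = x q + x (qd d m) := by
          rw [hy]; unfold ynew; rw [if_pos hq']
        have h9 : x q = y q - x (qd d m) := by rw [h8]; ring
        rw [h9]
        exact sub_mem h7 hu
      · have h8 : y q = x q := by
          rw [hy]; unfold ynew; rw [if_neg hq']
        rwa [h8] at h7
  have hL' : L' ≤ gen A ![UP.cst π T, x (qd d m)] := by
    refine hL.trans ?_
    rw [Subfield.closure_le, Set.union_subset_iff]
    refine ⟨?_, ?_⟩
    · rintro _ ⟨c, hc, rfl⟩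
      exact le_gen (hκA ⟨c, hc, rfl⟩)
    · rintro _ ⟨q, rfl⟩
      exact hxmem q
  have hgen : gen L' (fun i => UP.cst π ((![T] : Fin 1 → C) i)) ≤
      gen A ![UP.cst π T, x (qd d m)] := by
    unfold gen at hL' ⊢
    rw [Subfield.closure_le, Set.union_subset_iff]
    refine ⟨hL', ?_⟩
    rintro _ ⟨i, rfl⟩
    refine Subfield.subset_closure (Or.inr ⟨0, ?_⟩)
    fin_cases i
    rfl
  exact Subfield.closure_mono (Set.union_subset_union_left _ hgen)

end

end TH
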