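import Mathlib

/-!
# Elements which are unramified and split at a point
-/

universe u

namespace TH

open Polynomial

/-- `q` is unramified and split at `T = 0` over the constants -/
def SplitAt {S : Type u} [Field S] (kc : Subfield S) (T q : S) : Prop :=
  ∃ (e : ℕ) (P : Fin e → Polynomial kc) (r : Fin e → kc), Function.Injective r ∧
    (∀ j, r j ^ e + ∑ i, (P i).eval 0 * r j ^ (i : ℕ) = 0) ∧
    q ^ e + ∑ i, aeval T (P i) * q ^ (i : ℕ) = 0

end TH
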