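import Mathlib
import Pool.Agent.Helper37.TH.Split

/-!
# Elements which are fixed by decomposition groups
-/

universe u

namespace TH

open Polynomial IsLocalRing

variable {S : Type u} [Field S]

/-- a root of a monic polynomial with integral coefficients is integral -/
lemma mem_of_monic (V : ValuationSubring S) {e : ℕ} {c : Fin e → S} (hc : ∀ i, c i ∈ V) {q : S}
    (hq : q ^ e + ∑ i, c i * q ^ (i : ℕ) = 0) : q ∈ V := by
  by_contra hcon
  rw [← V.valuation_le_one_iff, not_le] at hcon
  have h1 : V.valuation (∑ i, c i * q ^ (i : ℕ)) < V.valuation (q ^ e) := by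
    refine Valuation.map_sum_lt' _ ?_ fun i _ => ?_
    · rw [map_pow]
      exact pow_pos (lt_trans zero_lt_one hcon) e
    · rw [map_mul, map_pow, map_pow]
      have h2 := (V.valuation_le_one_iff (c i)).2 (hc i)
      calc V.valuation (c i) * V.valuation q ^ (i : ℕ) ≤ 1 * V.valuation q ^ (i : ℕ) :=
            mul_le_mul_left h2 _
        _ = V.valuation q ^ (i : ℕ) := one_mul _
        _ < V.valuation q ^ e := pow_lt_pow_right₀ hcon i.2
  have h2 : V.valuation (q ^ e) = V.valuation (∑ i, c i * q ^ (i : ℕ)) := by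
    rw [eq_neg_of_add_eq_zero_left hq, Valuation.map_neg]
  exact h1.ne' h2

/-- **V0.** -/
theorem invis (V : ValuationSubring S) {kc : Subfield S} (hkc : ∀ x ∈ kc, x ∈ V) {T q : S}
    (hT : V.valuation T < 1) (hq : SplitAt kc T q) (σ : S ≃+* S) (hσ : ∀ x, σ x ∈ V ↔ x ∈ V)
    (hσk : ∀ x ∈ kc, σ x = x) (hσT : σ T = T) : σ q = q := by
  classical
  obtain ⟨e, P, r, hr, hr0, hqe⟩ := hq
  have hTV : T ∈ V := (V.valuation_le_one_iff _).1 hT.le
  have hPV : ∀ i, aeval T (P i) ∈ V := by
    intro i
    rw [aeval_eq_sum_range]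
    refine sum_mem fun l _ => ?_
    rw [Algebra.smul_def]
    exact mul_mem (hkc _ (Subtype.coe_prop _)) (pow_mem hTV _)
  -- the values of `σ`
  have hσunit : ∀ x, V.valuation (σ x) < 1 ↔ V.valuation x < 1 := by
    intro x
    by_cases hx0 : x = 0
    · rw [hx0, map_zero, map_zero]
    have h1 : ∀ y : S, y ≠ 0 → (V.valuation y < 1 ↔ y⁻¹ ∉ V) := by
      intro y hy
      rw [← V.valuation_le_one_iff, map_inv₀, not_le]
      exact (one_lt_inv₀ (zero_lt_iff.2 ((_root_.map_ne_zero _).2 hy))).symm
    rw [h1 x hx0, h1 (σ x) ((map_ne_zero σ).mpr hx0), ← map_inv₀, hσ]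
  have hqσ : (σ q) ^ e + ∑ i, aeval T (P i) * (σ q) ^ (i : ℕ) = 0 := by
    have h1 := congrArg σ hqe
    rw [map_add, map_pow, map_sum, map_zero] at h1
    rw [← h1]
    congr 1
    apply Finset.sum_congr rfl
    intro i _
    rw [map_mul, map_pow]
    congr 1
    rw [aeval_eq_sum_range, map_sum]
    apply Finset.sum_congr rfl
    intro l _
    rw [Algebra.smul_def, map_mul, map_pow, hσT]
    congr 1
    exact (hσk _ (Subtype.coe_prop _)).symm
  have hqV : q ∈ V := mem_of_monic V hPV hqe
  have hqV' : σ q ∈ V := (hσ q).mpr hqV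
  -- the polynomial over the valuation ring
  let f : V[X] := X ^ e + ∑ i, C (⟨aeval T (P i), hPV i⟩ : V) * X ^ (i : ℕ)
  have hfq : ∀ y : V, (y : S) ^ e + ∑ i, aeval T (P i) * (y : S) ^ (i : ℕ) = 0 → f.eval y = 0 := by
    intro y hy
    apply Subtype.coe_injective
    change V.subtype (f.eval y) = 0
    simp only [f, eval_add, eval_pow, eval_X, eval_finsetSum, eval_mul, eval_C, map_add, map_pow,
      map_sum, map_mul]
    exact hy
  have hfq1 : f.eval ⟨q, hqV⟩ = 0 := hfq _ hqe
  have hfq2 : f.eval ⟨σ q, hqV'⟩ = 0 := hfq _ hqσ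
  -- the residues of the constants
  let ρ : kc →+* ResidueField V :=
    (residue V).comp ((kc.subtype).codRestrict V.toSubring (fun x => hkc _ x.2))
  have hρ : Function.Injective ρ := ρ.injective
  have hres : ∀ i, residue V (⟨aeval T (P i), hPV i⟩ : V) = ρ ((P i).eval 0) := by
    intro i
    change residue V _ = residue V _
    rw [← sub_eq_zero, ← map_sub, residue_eq_zero_iff, V.valuation_lt_one_iff]
    change V.valuation (aeval T (P i) - ((P i).eval 0 : kc)) < 1
    have h1 : aeval T (P i) - (((P i).eval 0 : kc) : S) = T * aeval T (P i).divX := by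
      have h2 := congrArg (aeval T) (divX_mul_X_add (P i))
      rw [map_add, map_mul, aeval_X, aeval_C, coeff_zero_eq_eval_zero] at h2
      rw [← h2]
      change _ + (((P i).eval 0 : kc) : S) - _ = _
      ring
    rw [h1, map_mul]
    have h2 : V.valuation (aeval T (P i).divX) ≤ 1 := by
      rw [V.valuation_le_one_iff, aeval_eq_sum_range]
      refine sum_mem fun l _ => ?_
      rw [Algebra.smul_def]
      exact mul_mem (hkc _ (Subtype.coe_prop _)) (pow_mem hTV _)
    exact lt_of_le_of_lt (mul_le_of_le_one_right' h2) hT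
  -- the residue polynomial
  let g : (ResidueField V)[X] := f.map (residue V)
  have hg : g = X ^ e + ∑ i, C (ρ ((P i).eval 0)) * X ^ (i : ℕ) := by
    simp only [g, f, Polynomial.map_add, Polynomial.map_pow, map_X, Polynomial.map_sum,
      Polynomial.map_mul, map_C, hres]
  have hgprod : g = ∏ j, (X - C (ρ (r j))) := by
    have hdeg : (∑ i : Fin e, C (ρ ((P i).eval 0)) * X ^ (i : ℕ)).degree < (e : WithBot ℕ) :=
      degree_sum_fin_lt _
    have hmonic : (∏ j, (X - C (ρ (r j)))).Monic := monic_prod_of_monic _ _ fun j _ =>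
      monic_X_sub_C _
    have hdegp : (∏ j, (X - C (ρ (r j)))).degree = (e : WithBot ℕ) := by
      rw [degree_prod]
      simp
    have hgm : g.Monic := by
      rw [hg]
      exact monic_X_pow_add hdeg
    have hgd : g.degree = (e : WithBot ℕ) := by
      rw [hg, degree_add_eq_left_of_degree_lt, degree_X_pow]
      rw [degree_X_pow]
      exact hdeg
    apply eq_of_degree_sub_lt_of_eval_finset_eq (Finset.univ.image fun j => ρ (r j))
    · have hinj : Function.Injective fun j => ρ (r j) := fun a b h => hr (hρ h)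
      rw [Finset.card_image_of_injective _ hinj, Finset.card_univ, Fintype.card_fin]
      rcases Nat.eq_zero_or_pos e with he | he
      · subst he
        have h1 : g = 1 := by
          rw [hg]
          simp
        rw [h1]
        simp
      · have h1 : (g - ∏ j, (X - C (ρ (r j)))).degree < g.degree :=
          degree_sub_lt_left (hgd.trans hdegp.symm) hgm.ne_zero (by
            rw [hgm.leadingCoeff, hmonic.leadingCoeff])
        rwa [hgd] at h1
    · intro x hx
      rw [Finset.mem_image] at hx
      obtain ⟨j, -, rfl⟩ := hx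
      rw [eval_prod, Finset.prod_eq_zero (Finset.mem_univ j) (by simp), hg]
      simp only [eval_add, eval_pow, eval_X, eval_finsetSum, eval_mul, eval_C]
      have h1 := congrArg ρ (hr0 j)
      simp only [map_add, map_pow, map_sum, map_mul, map_zero] at h1
      exact h1
  have hsep : g.Separable := by
    rw [hgprod]
    exact separable_prod_X_sub_C_iff.mpr (hρ.comp hr)
  have hroot : ∀ y : V, f.eval y = 0 → ∃ j, residue V y = ρ (r j) := by
    intro y hy
    have h1 : g.eval (residue V y) = 0 := by
      rw [eval_map, eval₂_at_apply, hy, map_zero]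
    rw [hgprod, eval_prod, Finset.prod_eq_zero_iff] at h1
    obtain ⟨j, -, hj⟩ := h1
    exact ⟨j, by simpa [sub_eq_zero] using hj⟩
  obtain ⟨j, hj⟩ := hroot _ hfq1
  have hval : ∀ (y : V) (c : kc), residue V y = ρ c ↔ V.valuation ((y : S) - c) < 1 := by
    intro y c
    change residue V y = residue V _ ↔ _
    rw [← sub_eq_zero, ← map_sub, residue_eq_zero_iff, V.valuation_lt_one_iff]
    rfl
  have hj' : residue V ⟨σ q, hqV'⟩ = ρ (r j) := by
    rw [hval] at hj ⊢
    have h1 : σ (q - (r j : S)) = σ q - (r j : S) := by rw [map_sub, hσk _ (r j).2]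
    change V.valuation (σ q - (r j : S)) < 1
    rw [← h1, hσunit]
    exact hj
  -- uniqueness
  set y : V := ⟨q, hqV⟩ with hy
  set y' : V := ⟨σ q, hqV'⟩ with hy'
  have hyy : residue V (y' - y) = 0 := by rw [map_sub, hj, hj', sub_self]
  have hder : IsUnit (f.derivative.eval y) := by
    rw [← residue_ne_zero_iff_isUnit]
    have h1 : residue V (f.derivative.eval y) = g.derivative.eval (residue V y) := by
      rw [derivative_map, eval_map, eval₂_at_apply]
    rw [h1]
    have h2 := hsep.eval₂_derivative_ne_zero (RingHom.id _) (x := residue V y) (by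
      rw [eval₂_id, eval_map, eval₂_at_apply, hfq1, map_zero])
    rwa [eval₂_id] at h2
  obtain ⟨k, hk⟩ := f.binomExpansion y (y' - y)
  rw [add_sub_cancel, hfq1, hfq2, zero_add] at hk
  have h1 : (y' - y) * (f.derivative.eval y + k * (y' - y)) = 0 := by
    rw [mul_add]
    calc _ = f.derivative.eval y * (y' - y) + k * (y' - y) ^ 2 := by ring
      _ = 0 := hk.symm
  have h2 : f.derivative.eval y + k * (y' - y) ≠ 0 := by
    intro h0
    have h3 := congrArg (residue V) h0
    rw [map_add, map_mul, hyy, mul_zero, add_zero, map_zero] at h3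
    exact (residue_ne_zero_iff_isUnit _).mpr hder h3
  have h3 : y' - y = 0 := (mul_eq_zero.mp h1).resolve_right h2
  have h4 := congrArg (Subtype.val) h3
  have h5 : σ q - q = 0 := h4
  exact sub_eq_zero.mp h5

end TH
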