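import Mathlib
import Pool.Agent.Helper37.UL.Germ2

/-!
# Relatively algebraically closed subfields and rational functions in one variable
-/

universe u

namespace TH

open Polynomial Pool.Agent.Helper37.UL

section

variable {S : Type u} [Field S]

/-- elements of `K(T)` -/
lemma mem_gen_one {K : Subfield S} {T : S} (hT : Transcendental K T) {x : S} :
    x ∈ gen K ![T] ↔ ∃ P Q : K[X], Q ≠ 0 ∧ aeval T Q * x = aeval T P := by
  have hr : Set.range (![T] : Fin 1 → S) = {T} := by
    rw [Matrix.range_cons, Matrix.range_empty, Set.union_empty]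
  rw [mem_gen_adjoin, hr, IntermediateField.mem_adjoin_simple_iff]
  constructor
  · rintro ⟨P, Q, rfl⟩
    by_cases hQ : Q = 0
    · refine ⟨0, 1, one_ne_zero, ?_⟩
      rw [hQ]
      simp
    · refine ⟨P, Q, hQ, ?_⟩
      have h1 : aeval T Q ≠ 0 := fun h => hQ (transcendental_iff.mp hT Q h)
      rw [mul_div_cancel₀ _ h1]
  · rintro ⟨P, Q, hQ, h⟩
    have h1 : aeval T Q ≠ 0 := fun h => hQ (transcendental_iff.mp hT Q h)
    exact ⟨P, Q, by rw [← h, mul_div_cancel_left₀ _ h1]⟩

/-- elements which are algebraic over `K(T)` -/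
lemma exists_rel {K : Subfield S} {T : S} (hT : Transcendental K T) {x : S}
    (hx : IsAlgebraic (gen K ![T]) x) : ∃ (n : ℕ) (G : Fin (n + 1) → K[X]), G ≠ 0 ∧
      ∑ i, aeval T (G i) * x ^ (i : ℕ) = 0 := by
  classical
  obtain ⟨n, c, hc, hc0, hcx⟩ := isAlgebraic_iff.mp hx
  have h1 : ∀ i, ∃ P Q : K[X], Q ≠ 0 ∧ aeval T Q * c i = aeval T P := fun i =>
    (mem_gen_one hT).mp (hc i)
  choose P Q hQ hPQ using h1
  have hQT : ∀ i, aeval T (Q i) ≠ 0 := fun i h => hQ i (transcendental_iff.mp hT _ h)
  refine ⟨n, fun i => P i * ∏ j ∈ Finset.univ.erase i, Q j, ?_, ?_⟩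
  · obtain ⟨i, hi⟩ := Function.ne_iff.mp hc0
    intro h0
    have h2 := congrFun h0 i
    simp only [Pi.zero_apply, mul_eq_zero] at h2
    rcases h2 with h2 | h2
    · have h3 := hPQ i
      rw [h2, map_zero, mul_eq_zero] at h3
      rcases h3 with h3 | h3
      · exact hQT i h3
      · exact hi h3
    · rw [Finset.prod_eq_zero_iff] at h2
      obtain ⟨j, -, hj⟩ := h2
      exact hQ j hj
  · have h2 : ∀ i, aeval T (P i * ∏ j ∈ Finset.univ.erase i, Q j) =
        (∏ j, aeval T (Q j)) * c i := by
      intro i
      rw [map_mul, map_prod, ← hPQ i, ← Finset.mul_prod_erase Finset.univ (fun j => aeval T (Q j))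
        (Finset.mem_univ i)]
      ring
    simp only [h2, mul_assoc]
    rw [← Finset.mul_sum, hcx, mul_zero]

/-- **Gauss.** If `K` is relatively algebraically closed in `M`, then `K(T)` is relatively
algebraically closed in `M(T)`. -/
theorem gauss [CharZero S] {K M : Subfield S} (hKM : K ≤ M)
    (hrel : ∀ x ∈ M, IsAlgebraic K x → x ∈ K) {T : S} (hT : Transcendental M T) {x : S}
    (hx : x ∈ gen M ![T]) (halg : IsAlgebraic (gen K ![T]) x) : x ∈ gen K ![T] := by
  classical
  have hTK : Transcendental K T := by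
    intro h
    exact hT (isAlgebraic_mono hKM h)
  obtain ⟨P, Q, hQ, hPQ⟩ := (mem_gen_one hT).mp hx
  obtain ⟨n, G, hG0, hG⟩ := exists_rel hTK halg
  have hQT : aeval T Q ≠ 0 := fun h => hQ (transcendental_iff.mp hT _ h)
  let ι : K →+* M := Subfield.inclusion hKM
  -- the relation between polynomials over `M`
  have hrelM : ∑ i, (G i).map ι * P ^ (i : ℕ) * Q ^ (n - (i : ℕ)) = 0 := by
    apply transcendental_iff.mp hT
    rw [map_sum]
    have h1 : ∀ i : Fin (n + 1), aeval T ((G i).map ι * P ^ (i : ℕ) * Q ^ (n - (i : ℕ))) =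
        (aeval T Q) ^ n * (aeval T (G i) * x ^ (i : ℕ)) := by
      intro i
      have h2 : aeval T ((G i).map ι) = aeval T (G i) := by
        rw [aeval_def, eval₂_map, aeval_def]
        rfl
      have h3 : (i : ℕ) + (n - i) = n := by
        have := i.2
        omega
      rw [map_mul, map_mul, map_pow, map_pow, h2, ← hPQ, mul_pow]
      calc _ = (aeval T Q) ^ ((i : ℕ) + (n - i)) * (aeval T (G i) * x ^ (i : ℕ)) := by
            rw [pow_add]; ring
        _ = _ := by rw [h3]
    simp only [h1]
    rw [← Finset.mul_sum, hG, mul_zero]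
  obtain ⟨i₀, hi₀⟩ := Function.ne_iff.mp hG0
  -- good values
  have hgood : ∀ c : ℕ, Q.eval (c : M) ≠ 0 → (G i₀).eval (c : K) ≠ 0 →
      P.eval (c : M) / Q.eval (c : M) ∈ ι.fieldRange := by
    intro c hc hc'
    set y : M := P.eval (c : M) / Q.eval (c : M) with hy
    have h1 : IsAlgebraic K (y : S) := by
      rw [isAlgebraic_iff]
      refine ⟨n, fun i => ((G i).eval (c : K) : K), fun i => Subtype.coe_prop _, ?_, ?_⟩
      · intro h0
        apply hc'
        exact Subtype.ext (congrFun h0 i₀)
      · have h2 := congrArg (fun p => ((eval (c : M) p : M) : S)) hrelM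
        simp only [eval_finsetSum, eval_mul, eval_pow, eval_zero] at h2
        have h3 : ∀ i : Fin (n + 1), eval (c : M) ((G i).map ι) = ι ((G i).eval (c : K)) := by
          intro i
          have h4 : (c : M) = ι (c : K) := (map_natCast ι c).symm
          rw [h4, eval_map, eval₂_at_apply]
        have h5 : P.eval (c : M) = y * Q.eval (c : M) := by
          rw [hy, div_mul_cancel₀ _ hc]
        have h6 : ∀ i : Fin (n + 1), eval (c : M) ((G i).map ι) * eval (c : M) P ^ (i : ℕ) *
            eval (c : M) Q ^ (n - (i : ℕ)) =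
            eval (c : M) Q ^ n * (ι ((G i).eval (c : K)) * y ^ (i : ℕ)) := by
          intro i
          have h7 : (i : ℕ) + (n - i) = n := by
            have := i.2
            omega
          rw [h3, h5, mul_pow]
          calc _ = eval (c : M) Q ^ ((i : ℕ) + (n - i)) *
                (ι ((G i).eval (c : K)) * y ^ (i : ℕ)) := by rw [pow_add]; ring
            _ = _ := by rw [h7]
        simp only [h6] at h2
        rw [← Finset.mul_sum] at h2
        have h8 : ((eval (c : M) Q ^ n : M) : S) ≠ 0 := by
          intro h0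
          exact pow_ne_zero n hc (Subtype.ext h0)
        have h9 : ((eval (c : M) Q ^ n : M) : S) *
            ((∑ i, ι ((G i).eval (c : K)) * y ^ (i : ℕ) : M) : S) = 0 := h2
        rcases mul_eq_zero.mp h9 with h10 | h10
        · exact absurd h10 h8
        · have h11 : ((∑ i, ι ((G i).eval (c : K)) * y ^ (i : ℕ) : M) : S) =
              ∑ i, (((G i).eval (c : K) : K) : S) * (y : S) ^ (i : ℕ) := by
            change M.subtype _ = _
            rw [map_sum]
            rfl
          rw [← h11]
          exact h10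
    exact ⟨⟨y, hrel _ y.2 h1⟩, rfl⟩
  -- a linear functional
  obtain ⟨j, hj⟩ : ∃ j, Q.coeff j ≠ 0 := by
    by_contra hcon
    push Not at hcon
    exact hQ (Polynomial.ext fun j => by rw [hcon j, coeff_zero])
  let _ : Algebra K M := ι.toAlgebra
  obtain ⟨lam, hlam⟩ : ∃ lam : M →ₗ[K] K, lam (Q.coeff j) ≠ 0 := by
    by_contra hcon
    push Not at hcon
    exact hj ((Module.forall_dual_apply_eq_zero_iff K (Q.coeff j)).mp hcon)
  let N := max P.natDegree Q.natDegree
  let L : M[X] → K[X] := fun p => ∑ i ∈ Finset.range (N + 1), C (lam (p.coeff i)) * X ^ i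
  have hL : ∀ p : M[X], p.natDegree ≤ N → ∀ c : K, (L p).eval c = lam (p.eval (ι c)) := by
    intro p hp c
    rw [eval_eq_sum_range' (lt_of_le_of_lt hp (Nat.lt_succ_self N)), map_sum]
    simp only [L, eval_finsetSum, eval_mul, eval_C, eval_pow, eval_X]
    apply Finset.sum_congr rfl
    intro i _
    have h1 : p.coeff i * ι c ^ i = (c ^ i) • p.coeff i := by
      rw [Algebra.smul_def, map_pow, mul_comm]
      rfl
    rw [h1, map_smul, smul_eq_mul, mul_comm]
  have hLQ : L Q ≠ 0 := by
    intro h0
    have h1 := congrArg (fun p => p.coeff j) h0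
    simp only [L, finsetSum_coeff, coeff_C_mul_X_pow, coeff_zero] at h1
    rw [Finset.sum_eq_single j] at h1
    · rw [if_pos rfl] at h1
      exact hlam h1
    · intro i _ hij
      rw [if_neg (fun h => hij h.symm)]
    · intro hjN
      exfalso
      apply hj
      apply coeff_eq_zero_of_natDegree_lt
      rw [Finset.mem_range] at hjN
      have := le_max_right P.natDegree Q.natDegree
      omega
  have hR : (L P).map ι * Q - P * (L Q).map ι = 0 := by
    have h1 : ((L P).map ι * Q - P * (L Q).map ι) * (Q * (G i₀).map ι) = 0 := by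
      apply eq_zero_of_infinite_isRoot
      refine Set.infinite_of_injective_forall_mem (f := fun c : ℕ => (c : M)) Nat.cast_injective ?_
      intro c
      have hc : (c : M) = ι (c : K) := (map_natCast ι c).symm
      change eval (c : M) _ = 0
      rw [eval_mul, eval_mul, mul_eq_zero, mul_eq_zero]
      by_cases h2 : Q.eval (c : M) = 0
      · exact Or.inr (Or.inl h2)
      by_cases h3 : (G i₀).eval (c : K) = 0
      · right
        right
        rw [hc, eval_map, eval₂_at_apply, h3, map_zero]
      · left
        obtain ⟨kc, hkc⟩ := hgood c h2 h3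
        have h4 : P.eval (c : M) = kc • Q.eval (c : M) := by
          rw [Algebra.smul_def]
          change _ = ι kc * _
          rw [hkc, div_mul_cancel₀ _ h2]
        have h5 : (L P).eval (c : K) = kc * (L Q).eval (c : K) := by
          rw [hL P (le_max_left _ _), hL Q (le_max_right _ _), ← hc, h4, map_smul, smul_eq_mul]
        rw [eval_sub, eval_mul, eval_mul]
        have h6 : eval (c : M) ((L P).map ι) = ι ((L P).eval (c : K)) := by
          rw [hc, eval_map, eval₂_at_apply]
        have h7 : eval (c : M) ((L Q).map ι) = ι ((L Q).eval (c : K)) := by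
          rw [hc, eval_map, eval₂_at_apply]
        rw [h6, h7, h5, h4, Algebra.smul_def, map_mul]
        change _ - ι kc * _ * _ = 0
        ring
    rcases mul_eq_zero.mp h1 with h2 | h2
    · exact h2
    · exfalso
      rcases mul_eq_zero.mp h2 with h3 | h3
      · exact hQ h3
      · exact hi₀ ((Polynomial.map_eq_zero_iff ι.injective).mp h3)
  refine (mem_gen_one hTK).mpr ⟨L P, L Q, hLQ, ?_⟩
  have h1 := congrArg (aeval T) hR
  have h2 : ∀ p : K[X], aeval T (p.map ι) = aeval T p := by
    intro p
    rw [aeval_def, eval₂_map, aeval_def]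
    rfl
  rw [map_zero, map_sub, map_mul, map_mul, h2, h2, ← hPQ] at h1
  have h3 : aeval T Q * (aeval T (L Q) * x - aeval T (L P)) = 0 := by
    rw [mul_sub]
    linear_combination -h1
  rcases mul_eq_zero.mp h3 with h4 | h4
  · exact absurd h4 hQT
  · exact sub_eq_zero.mp h4

end

end TH
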